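import Pool.Agent.E8helper59.TS.Stm5

/-!
# Project TS, piece S_LOW: the density when the directions do not span
-/

set_option autoImplicit false
open MeasureTheory Set Filter Topology
open scoped Pointwise ENNReal

namespace Pool.Agent.E8helper40.TS

open Pool.Agent.E8helper59.TSG

theorem vol_ball (d : ℕ) (l : ℝ) (hl : 0 ≤ l) :
    (volume (Metric.closedBall (0 : Pool.Agent.E8helper59.TS.G 0 d) l)).toReal = (2 * l) ^ d := by
  rw [← ball_image (iso d) l, vol_image (iso d) (iso_mp d), Real.volume_pi_closedBall _ hl,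
    Fintype.card_fin, ENNReal.toReal_ofReal (by positivity)]

theorem t_LOW (h1 : S_RANK) (h2 : Pool.Agent.E8helper59.TS.S_AVG) : S_LOW := by
  intro d n f K P₀ T hK hKc hKi hx hP hT
  obtain ⟨C, hC, hcount⟩ := h1 d n f K T hK hKc hKi hx hT
  obtain ⟨⟨v, L, hPe⟩, hKP, -⟩ := hP
  have hd : 1 ≤ d := by
    obtain ⟨x, hx0, -⟩ := hx
    by_contra hc
    have hd0 : d = 0 := by omega
    subst hd0
    exact hx0 (Subsingleton.elim _ _)
  have hPc : IsCompact P₀ := by
    rw [hPe]
    exact isCompact_Icc.image (continuous_const.add L.continuous)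
  have hPf : volume P₀ ≠ ⊤ := hPc.measure_lt_top.ne
  have hPp : 0 < volume P₀ := by
    have hi : 0 < volume (interior K) := isOpen_interior.measure_pos volume hKi
    exact lt_of_lt_of_le hi (measure_mono (interior_subset.trans hKP))
  obtain ⟨V₀, hV⟩ : ∃ V₀ : ℝ, V₀ = (volume P₀).toReal := ⟨_, rfl⟩
  have hV0 : 0 < V₀ := by
    rw [hV]
    exact ENNReal.toReal_pos hPp.ne' hPf
  have hVP : ENNReal.ofReal V₀ = volume P₀ := by
    rw [hV, ENNReal.ofReal_toReal hPf]
  have key := h2 0 d (iso d '' K) (iso d '' T)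
    (ContinuousLinearEquiv.refl ℝ (Pool.Agent.E8helper59.TS.G 0 d)) V₀ hV0
    (hK.image (iso d).continuous) ((hKi.mono interior_subset).image _) (by
      intro ε hε
      obtain ⟨l, hl⟩ : ∃ l : ℝ, l = max 1 (C * V₀) := ⟨_, rfl⟩
      have hl1 : 1 ≤ l := by rw [hl]; exact le_max_left _ _
      have hl2 : C * V₀ ≤ l := by rw [hl]; exact le_max_right _ _
      refine ⟨l, by linarith, fun y F hF => ?_⟩
      have hvol : (volume ((ContinuousLinearEquiv.refl ℝ
          (Pool.Agent.E8helper59.TS.G 0 d)).symm '' Metric.closedBall 0 l)).toReal =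
          (2 * l) ^ d := by
        rw [← vol_ball d l (by linarith)]
        congr 2
        ext z
        simp
      rw [hvol]
      classical
      have hcard : (F.card : ℝ) ≤ C * l ^ (d - 1) := by
        have hc := hcount (F.image (iso d).symm) ((iso d).symm y) l hl1 (by
          intro t ht
          obtain ⟨s, hs, rfl⟩ := Finset.mem_image.1 ht
          obtain ⟨hs1, hs2⟩ := hF s hs
          refine ⟨?_, ?_⟩
          · obtain ⟨t', ht', rfl⟩ := hs1
            rw [LinearIsometryEquiv.symm_apply_apply]
            exact ht'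
          · rw [Metric.mem_closedBall, (iso d).symm.dist_map]
            exact hs2)
        rwa [Finset.card_image_of_injective _ (iso d).symm.injective] at hc
      have e1 : l ^ d = l ^ (d - 1) * l := by
        rw [← pow_succ, Nat.sub_add_cancel hd]
      have e2 : l ^ d ≤ (2 * l) ^ d := pow_le_pow_left₀ (by linarith) (by linarith) d
      have e3 : 0 ≤ l ^ (d - 1) := by positivity
      calc (F.card : ℝ) * V₀ ≤ C * l ^ (d - 1) * V₀ :=
            mul_le_mul_of_nonneg_right hcard hV0.le
        _ = l ^ (d - 1) * (C * V₀) := by ring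
        _ ≤ l ^ (d - 1) * l := mul_le_mul_of_nonneg_left hl2 e3
        _ = l ^ d := e1.symm
        _ ≤ (2 * l) ^ d := e2
        _ ≤ (1 + ε) * (2 * l) ^ d := by
            have : 0 ≤ (2 * l) ^ d := by positivity
            nlinarith)
  have key' : density (iso d '' K) (iso d '' T) ≤ volume (iso d '' K) / ENNReal.ofReal V₀ := key
  rw [density_image (iso d) (iso_mp d), vol_image (iso d) (iso_mp d), hVP] at key'
  exact key'

end Pool.Agent.E8helper40.TS
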