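import Mathlib
import Pool.Agent.E8helper59.TS.Stm

/-!
# Project TS, piece S_STEP
-/

set_option autoImplicit false
open MeasureTheory Set Filter Topology
open scoped Pointwise ENNReal

namespace Pool.Agent.E8helper40.TS

open Pool.Agent.E8helper59.TS

/-- the reflection of the plane in the first axis -/
noncomputable def rfl2 : (ℝ × ℝ) ≃L[ℝ] (ℝ × ℝ) :=
  (ContinuousLinearEquiv.refl ℝ ℝ).prodCongr (ContinuousLinearEquiv.neg ℝ)

theorem rfl2_apply (p : ℝ × ℝ) : rfl2 p = (p.1, -p.2) := by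
  simp [rfl2]

theorem rfl2_rfl2 (p : ℝ × ℝ) : rfl2 (rfl2 p) = p := by
  simp [rfl2_apply]

theorem mp_rfl2 : MeasurePreserving (rfl2 : ℝ × ℝ → ℝ × ℝ) volume volume := by
  have h := (MeasurePreserving.id (volume : Measure ℝ)).prod
    (Measure.measurePreserving_neg (volume : Measure ℝ))
  have he : (rfl2 : ℝ × ℝ → ℝ × ℝ) = Prod.map id Neg.neg := by
    funext p
    rw [rfl2_apply]
    rfl
  rw [he]
  exact h

theorem compact_pre {B : Set (ℝ × ℝ)} (h : IsCompact B) : IsCompact (rfl2 ⁻¹' B) :=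
  rfl2.toHomeomorph.isCompact_preimage.2 h

theorem convex_pre {B : Set (ℝ × ℝ)} (h : Convex ℝ B) : Convex ℝ (rfl2 ⁻¹' B) :=
  h.linear_preimage (rfl2 : (ℝ × ℝ) →L[ℝ] (ℝ × ℝ)).toLinearMap

theorem bod_pre {B : Set (ℝ × ℝ)} (h : Bod B) : Bod (rfl2 ⁻¹' B) where
  comp := compact_pre h.comp
  conv := convex_pre h.conv
  int := by
    obtain ⟨p, hp⟩ := h.int
    refine ⟨rfl2 p, ?_⟩
    have h1 : rfl2 ⁻¹' (interior B) ⊆ interior (rfl2 ⁻¹' B) :=
      preimage_interior_subset_interior_preimage rfl2.continuous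
    apply h1
    show rfl2 (rfl2 p) ∈ interior B
    rw [rfl2_rfl2]
    exact hp
  symm := by
    intro p hp
    show rfl2 (-p) ∈ B
    rw [map_neg]
    exact h.symm _ hp

theorem add_pre {B C : Set (ℝ × ℝ)} {p : ℝ × ℝ} (hp : rfl2 p ∈ rfl2 ⁻¹' C + rfl2 ⁻¹' B) :
    p ∈ C + B := by
  obtain ⟨a, ha, b, hb, hab⟩ := hp
  refine ⟨rfl2 a, ha, rfl2 b, hb, ?_⟩
  have : rfl2 (a + b) = p := by
    have h2 : a + b = rfl2 p := hab
    rw [h2, rfl2_rfl2]
  show rfl2 a + rfl2 b = p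
  rw [← this, map_add]

theorem two_pre {B C : Set (ℝ × ℝ)} {p : ℝ × ℝ} (hp : p ∈ Two B C) :
    rfl2 p ∈ Two (rfl2 ⁻¹' B) (rfl2 ⁻¹' C) := by
  rcases hp with hp | hp
  · left
    obtain ⟨a, ha, b, hb, hab⟩ := hp
    refine ⟨rfl2 a, ⟨?_, ?_⟩, rfl2 b, ?_, ?_⟩
    · show rfl2 (rfl2 a) ∈ C
      rw [rfl2_rfl2]; exact ha.1
    · show (rfl2 a).1 ≤ 0
      rw [rfl2_apply]; exact ha.2
    · show rfl2 (rfl2 b) ∈ B
      rw [rfl2_rfl2]; exact hb
    · show rfl2 a + rfl2 b = rfl2 p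
      rw [← map_add]
      exact congrArg rfl2 hab
  · right
    obtain ⟨a, ha, b, hb, hab⟩ := hp
    refine ⟨rfl2 a, ⟨?_, ?_⟩, rfl2 b, ?_, ?_⟩
    · show rfl2 (rfl2 a) ∈ C
      rw [rfl2_rfl2]; exact ha.1
    · show 1 ≤ (rfl2 a).1
      rw [rfl2_apply]; exact ha.2
    · show rfl2 (rfl2 b) ∈ B
      rw [rfl2_rfl2]; exact hb
    · show rfl2 a + rfl2 b = rfl2 p
      rw [← map_add]
      exact congrArg rfl2 hab

theorem two_pre' {B C : Set (ℝ × ℝ)} {p : ℝ × ℝ}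
    (hp : p ∈ Two (rfl2 ⁻¹' B) (rfl2 ⁻¹' C)) : rfl2 p ∈ Two B C := by
  have h := two_pre hp
  have hB : rfl2 ⁻¹' (rfl2 ⁻¹' B) = B := by
    ext q; show rfl2 (rfl2 q) ∈ B ↔ _; rw [rfl2_rfl2]
  have hC : rfl2 ⁻¹' (rfl2 ⁻¹' C) = C := by
    ext q; show rfl2 (rfl2 q) ∈ C ↔ _; rw [rfl2_rfl2]
  rwa [hB, hC] at h

/-- TS2. The step, in the direction of the first axis. -/
theorem t_STEP (h : S_TOP) : S_STEP := by
  intro A B C hB hB1 hB2 hA hCc hCv hC0 hC1
  obtain ⟨G, hGm, hGs, hGv, hGt⟩ := h A B C hB hB1 hB2 hA hCc hCv hC0 hC1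
  obtain ⟨G', hGm', hGs', hGv', hGt'⟩ := h A (rfl2 ⁻¹' B) (rfl2 ⁻¹' C) (bod_pre hB)
    (by
      intro p hp
      have := hB1 _ hp
      rwa [rfl2_apply] at this)
    (by
      obtain ⟨p, hp, hp1⟩ := hB2
      refine ⟨rfl2 p, ?_, ?_⟩
      · show rfl2 (rfl2 p) ∈ B
        rw [rfl2_rfl2]; exact hp
      · rw [rfl2_apply]; exact hp1)
    (by
      intro m k hmk
      apply hA (-m) k
      intro p hp
      have h1 := hmk (rfl2 (-p)) (by
        show rfl2 (rfl2 (-p)) ∈ B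
        rw [rfl2_rfl2]; exact hB.symm p hp)
      rw [rfl2_apply] at h1
      simp only [Prod.fst_neg, Prod.snd_neg, neg_neg] at h1
      linarith)
    (compact_pre hCc) (convex_pre hCv)
    (by
      obtain ⟨p, hp, hp1⟩ := hC0
      refine ⟨rfl2 p, ?_, ?_⟩
      · show rfl2 (rfl2 p) ∈ C
        rw [rfl2_rfl2]; exact hp
      · rw [rfl2_apply]; exact hp1)
    (by
      obtain ⟨p, hp, hp1⟩ := hC1
      refine ⟨rfl2 p, ?_, ?_⟩
      · show rfl2 (rfl2 p) ∈ C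
        rw [rfl2_rfl2]; exact hp
      · rw [rfl2_apply]; exact hp1)
  have hvB : volume (rfl2 ⁻¹' B) = volume B :=
    mp_rfl2.measure_preimage hB.comp.measurableSet.nullMeasurableSet
  have hvG : volume (rfl2 ⁻¹' G') = volume G' :=
    mp_rfl2.measure_preimage hGm'.nullMeasurableSet
  rw [hvB, ← hvG] at hGv'
  set H := rfl2 ⁻¹' G' with hH
  have hHm : MeasurableSet H := mp_rfl2.measurable hGm'
  have hHs : H ⊆ C + B := fun p hp => add_pre (hGs' hp)
  have hHt : ∀ x y : ℝ, (x, y) ∈ H →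
      (∃ y', (x, y') ∈ Two B C) ∧ ∀ y', (x, y') ∈ Two B C → y < y' := by
    intro x y hxy
    have hxy' : (x, -y) ∈ G' := by
      have : rfl2 (x, y) ∈ G' := hxy
      rwa [rfl2_apply] at this
    obtain ⟨⟨y', hy'⟩, h2⟩ := hGt' x (-y) hxy'
    refine ⟨⟨-y', ?_⟩, ?_⟩
    · have := two_pre' hy'
      rwa [rfl2_apply] at this
    · intro z hz
      have h3 := two_pre hz
      rw [rfl2_apply] at h3
      have := h2 _ h3
      linarith
  -- the two pieces
  have hP : IsCompact ((C ∩ {p | p.1 ≤ 0}) + B) :=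
    (hCc.inter_right (isClosed_le continuous_fst continuous_const)).add hB.comp
  have hQ : IsCompact ((C ∩ {p | 1 ≤ p.1}) + B) :=
    (hCc.inter_right (isClosed_le continuous_const continuous_fst)).add hB.comp
  have hU : volume (Two B C) =
      volume ((C ∩ {p | p.1 ≤ 0}) + B) + volume ((C ∩ {p | 1 ≤ p.1}) + B) := by
    unfold Two
    apply measure_union₀ hQ.measurableSet.nullMeasurableSet
    have hn : volume (({(1 / 2 : ℝ)} : Set ℝ) ×ˢ (univ : Set ℝ)) = 0 := by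
      rw [Measure.volume_eq_prod, Measure.prod_prod]
      simp
    refine measure_mono_null ?_ hn
    rintro ⟨x, y⟩ ⟨h1, h2⟩
    obtain ⟨a, ha, b, hb, hab⟩ := h1
    obtain ⟨a', ha', b', hb', hab'⟩ := h2
    have e1 : a.1 + b.1 = x := congrArg Prod.fst hab
    have e2 : a'.1 + b'.1 = x := congrArg Prod.fst hab'
    have f1 : a.1 ≤ 0 := ha.2
    have f2 : 1 ≤ a'.1 := ha'.2
    have g1 := abs_le.1 (hB1 b hb)
    have g2 := abs_le.1 (hB1 b' hb')
    refine ⟨?_, mem_univ _⟩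
    show x = 1 / 2
    linarith [g1.1, g1.2, g2.1, g2.2]
  have hUm : MeasurableSet (Two B C) := hP.measurableSet.union hQ.measurableSet
  have hUs : Two B C ⊆ C + B := by
    rintro p (hp | hp)
    · exact add_subset_add_right inter_subset_left hp
    · exact add_subset_add_right inter_subset_left hp
  have hfin : volume (C + B) ≠ ⊤ := (hCc.add hB.comp).measure_lt_top.ne
  have hPf : volume ((C ∩ {p | p.1 ≤ 0}) + B) ≠ ⊤ := hP.measure_lt_top.ne
  have hQf : volume ((C ∩ {p | 1 ≤ p.1}) + B) ≠ ⊤ := hQ.measure_lt_top.ne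
  have hGf : volume G ≠ ⊤ := (lt_of_le_of_lt (measure_mono hGs) hfin.lt_top).ne
  have hHf : volume H ≠ ⊤ := (lt_of_le_of_lt (measure_mono hHs) hfin.lt_top).ne
  have hd1 : Disjoint (Two B C) G := by
    rw [Set.disjoint_left]
    rintro ⟨x, y⟩ h1 h2
    exact lt_irrefl _ ((hGt x y h2).2 y h1)
  have hd2 : Disjoint (Two B C ∪ G) H := by
    rw [Set.disjoint_left]
    rintro ⟨x, y⟩ h1 h2
    rcases h1 with h1 | h1
    · exact lt_irrefl _ ((hHt x y h2).2 y h1)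
    · obtain ⟨⟨z, hz⟩, h3⟩ := hGt x y h1
      have h4 := h3 z hz
      have h5 := (hHt x y h2).2 z hz
      exact lt_asymm h4 h5
  have hsum : volume (Two B C ∪ G ∪ H) =
      volume ((C ∩ {p | p.1 ≤ 0}) + B) + volume ((C ∩ {p | 1 ≤ p.1}) + B) + volume G +
        volume H := by
    rw [measure_union hd2 hHm, measure_union hd1 hGm, hU]
  have hle : volume (Two B C ∪ G ∪ H) ≤ volume (C + B) :=
    measure_mono (union_subset (union_subset hUs hGs) hHs)
  rw [hsum] at hle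
  have hle' := ENNReal.toReal_mono hfin hle
  rw [ENNReal.toReal_add (by simp [hPf, hQf, hGf]) hHf,
    ENNReal.toReal_add (by simp [hPf, hQf]) hGf, ENNReal.toReal_add hPf hQf] at hle'
  linarith

end Pool.Agent.E8helper40.TS
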